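import Pool.Agent.helper78.FS.Spec

/-! # FS, row ARC (helper18) -/

set_option autoImplicit false

namespace Pool.Agent.helper78.FS

/-- parity condition at a vertex. -/
def ARC_p (a b c d : Bool) : Bool := (a.toNat + b.toNat + c.toNat + d.toNat) % 2 == 0

theorem ARC_key : ∀ b0 b1 b2 b3 b4 b5 : Bool, ∀ i j : Fin 6,
    (ARC_p b0 b5 (decide ((0 : Fin 6) = i)) (decide ((0 : Fin 6) = j)) && ARC_p b1 b0 (decide ((1 : Fin 6) = i)) (decide ((1 : Fin 6) = j)) &&
    ARC_p b2 b1 (decide ((2 : Fin 6) = i)) (decide ((2 : Fin 6) = j)) && ARC_p b3 b2 (decide ((3 : Fin 6) = i)) (decide ((3 : Fin 6) = j)) &&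
    ARC_p b4 b3 (decide ((4 : Fin 6) = i)) (decide ((4 : Fin 6) = j)) && ARC_p b5 b4 (decide ((5 : Fin 6) = i)) (decide ((5 : Fin 6) = j))) = true →
    i ≠ j → j ≠ i + 1 → i ≠ j + 1 →
    2 ≤ b0.toNat + b1.toNat + b2.toNat + b3.toNat + b4.toNat + b5.toNat ∧ b0.toNat + b1.toNat + b2.toNat + b3.toNat + b4.toNat + b5.toNat ≤ 4 := by
  decide +kernel

theorem ARC : ARC_stmt := by
  intro S i j h hij h1 h2
  have hb : ∀ (P : Prop) [Decidable P] (inst : Decidable P), (@ite ℕ P inst 1 0) = (decide P).toNat := by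
    intro P _ inst
    by_cases hP : P
    · rw [if_pos hP, decide_eq_true hP]
      rfl
    · rw [if_neg hP, decide_eq_false hP]
      rfl
  have hk : ∀ k l : ZMod 6, k - 1 = l → ARC_p (decide (k ∈ S)) (decide (l ∈ S)) (decide (k = i)) (decide (k = j)) = true := by
    intro k l hl
    have h3 := h k
    rw [hl] at h3
    unfold ARC_p
    rw [beq_iff_eq, ← Nat.even_iff]
    rw [hb, hb, hb, hb] at h3
    exact h3
  have hc : S.card = (decide ((0 : ZMod 6) ∈ S)).toNat + (decide ((1 : ZMod 6) ∈ S)).toNat + (decide ((2 : ZMod 6) ∈ S)).toNat +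
      (decide ((3 : ZMod 6) ∈ S)).toNat + (decide ((4 : ZMod 6) ∈ S)).toNat + (decide ((5 : ZMod 6) ∈ S)).toNat := by
    have e1 : S.card = ∑ k : ZMod 6, (decide (k ∈ S)).toNat := by
      rw [Finset.card_eq_sum_ones, ← Finset.sum_filter_add_sum_filter_not Finset.univ (fun k => k ∈ S) (fun k => (decide (k ∈ S)).toNat)]
      have e2 : Finset.univ.filter (fun k => k ∈ S) = S := by
        ext k
        simp
      have e3 : ∑ k ∈ Finset.univ.filter (fun k => ¬ k ∈ S), (decide (k ∈ S)).toNat = 0 := by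
        refine Finset.sum_eq_zero fun k hk => ?_
        have := (Finset.mem_filter.1 hk).2
        simp [this]
      rw [e2, e3, add_zero]
      refine Finset.sum_congr rfl fun k hk => ?_
      simp [hk]
    rw [e1]
    exact Fin.sum_univ_six (fun k : ZMod 6 => (decide (k ∈ S)).toNat)
  rw [hc]
  refine ARC_key _ _ _ _ _ _ i j ?_ hij h1 h2
  have g0 := hk 0 5 rfl
  have g1 := hk 1 0 rfl
  have g2 := hk 2 1 rfl
  have g3 := hk 3 2 rfl
  have g4 := hk 4 3 rfl
  have g5 := hk 5 4 rfl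
  rw [Bool.and_eq_true, Bool.and_eq_true, Bool.and_eq_true, Bool.and_eq_true, Bool.and_eq_true]
  exact ⟨⟨⟨⟨⟨g0, g1⟩, g2⟩, g3⟩, g4⟩, g5⟩

end Pool.Agent.helper78.FS
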