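import Pool.Agent.helper78.FS.Spec

/-! # FS, row COC (helper18): the cochain om is a cocycle -/

set_option autoImplicit false

namespace Pool.Agent.helper78.FS

open Finset Real

theorem COC_nsq (a : E3) : ‖a‖ ^ 2 = a 0 ^ 2 + a 1 ^ 2 + a 2 ^ 2 := by
  rw [EuclideanSpace.norm_sq_eq, Fin.sum_univ_three]
  simp [Real.norm_eq_abs, sq_abs]

theorem COC_dsq (a b : E3) : dist a b ^ 2 = (a 0 - b 0) ^ 2 + (a 1 - b 1) ^ 2 + (a 2 - b 2) ^ 2 := by
  rw [dist_eq_norm, COC_nsq]
  simp

theorem COC_z (t : ℝ) (a d : E3) : |zc t a - zc t d| ≤ dist a d := by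
  apply abs_le_of_sq_le_sq _ dist_nonneg
  rw [COC_dsq]
  have h := Real.sin_sq_add_cos_sq t
  unfold zc
  have e : (sin t * a 0 + cos t * a 2 - (sin t * d 0 + cos t * d 2)) ^ 2 =
      (sin t ^ 2 + cos t ^ 2) * ((a 0 - d 0) ^ 2 + (a 2 - d 2) ^ 2) - (cos t * (a 0 - d 0) - sin t * (a 2 - d 2)) ^ 2 := by
    ring
  rw [e, h]
  nlinarith [sq_nonneg (cos t * (a 0 - d 0) - sin t * (a 2 - d 2)), sq_nonneg (a 1 - d 1)]

theorem COC_n (t : ℝ) (a : E3) : xc t a ^ 2 + yc a ^ 2 + zc t a ^ 2 = ‖a‖ ^ 2 := by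
  rw [COC_nsq]
  have h := Real.sin_sq_add_cos_sq t
  unfold xc yc zc
  linear_combination (a 0 ^ 2 + a 2 ^ 2) * h

theorem COC_1 (hA : AXS_stmt) (t L r : ℝ) (a b c d : E3) (hL : 0 < L) (hr : 10 * L ≤ r) (ha : ‖a‖ = r)
    (hab : dist a b ≤ L) (hac : dist a c ≤ L) (had : dist a d ≤ L) (h1 : 0 < zc t a) (h2 : ¬ 0 < zc t d) :
    dkap t a b c = 0 := by
  apply hA t L a b c hab hac
  have hz := COC_z t a d
  rw [abs_le] at hz
  have hz1 : zc t a ≤ L := by linarith [hz.2]
  have hn := COC_n t a
  rw [ha] at hn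
  by_contra hcon
  push Not at hcon
  obtain ⟨g1, g2⟩ := hcon
  have s1 : yc a ^ 2 ≤ L ^ 2 := by
    rw [← sq_abs]
    exact pow_le_pow_left₀ (abs_nonneg _) g1 2
  have s2 : xc t a ^ 2 ≤ L ^ 2 := by
    rw [← sq_abs]
    exact pow_le_pow_left₀ (abs_nonneg _) g2 2
  have s3 : zc t a ^ 2 ≤ L ^ 2 := pow_le_pow_left₀ h1.le hz1 2
  have s4 : (10 * L) ^ 2 ≤ r ^ 2 := pow_le_pow_left₀ (by linarith) hr 2
  nlinarith [mul_pos hL hL]

theorem COC_2 (t : ℝ) (a b c d : E3) : dkap t b c d + dkap t a c d + dkap t a b d + dkap t a b c = 0 := by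
  unfold dkap
  have h : ∀ x : ZMod 2, x + x = 0 := by decide
  linear_combination h (kap t b c) + h (kap t c d) + h (kap t b d) + h (kap t a c) + h (kap t a d) + h (kap t a b)

/-- row COC. -/
theorem COC : COC_stmt := by
  intro hA t L r a b c d hL hr ha hb hc hd hab hac had hbc hbd hcd
  unfold om
  by_cases h1 : 0 < zc t a
  · by_cases h2 : 0 < zc t b
    · by_cases h3 : 0 < zc t c
      · by_cases h4 : 0 < zc t d
        · simp only [h1, h2, h3, h4, and_self, if_true]
          exact COC_2 t a b c d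
        · simp only [h1, h2, h3, h4, and_self, and_false, if_true, if_false, zero_add]
          exact COC_1 hA t L r a b c d hL hr ha hab hac had h1 h4
      · by_cases h4 : 0 < zc t d
        · simp only [h1, h2, h3, h4, and_self, and_false, false_and, if_true, if_false, zero_add, add_zero]
          exact COC_1 hA t L r a b d c hL hr ha hab had hac h1 h3
        · simp only [h1, h2, h3, h4, and_self, and_false, false_and, if_false, add_zero]
    · by_cases h3 : 0 < zc t c
      · by_cases h4 : 0 < zc t d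
        · simp only [h1, h2, h3, h4, and_self, and_false, false_and, if_true, if_false, zero_add, add_zero]
          exact COC_1 hA t L r a c d b hL hr ha hac had hab h1 h2
        · simp only [h1, h2, h3, h4, and_self, and_false, false_and, if_false, add_zero]
      · simp only [h2, h3, and_false, false_and, if_false, add_zero]
  · by_cases h2 : 0 < zc t b
    · by_cases h3 : 0 < zc t c
      · by_cases h4 : 0 < zc t d
        · simp only [h1, h2, h3, h4, and_self, false_and, if_true, if_false, add_zero]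
          exact COC_1 hA t L r b c d a hL hr hb hbc hbd (by rw [dist_comm]; exact hab) h2 h1
        · simp only [h1, h4, and_false, false_and, if_false, add_zero]
      · simp only [h1, h3, and_false, false_and, if_false, add_zero]
    · simp only [h1, h2, false_and, if_false, add_zero]

end Pool.Agent.helper78.FS
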