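import Pool.Agent.helper87.FS.Spec

/-! MP_abccb5_co, project FS, row EV2. -/

set_option autoImplicit false

namespace Pool.Agent.FS

open Polynomial Matrix Pool.Agent.helper42.NS

theorem EV2_bad {P : Pt} {t ka kb : ℕ} {H : Matrix (Fin t) (Fin t) ℤ} {B : Fin ka → Fin t → Bool}
    {W : Fin kb → Fin t → Bool} : Bad P H (Fin.append B W) ↔
      ∃ u ∈ EM (KP P) (lamP P) H B, u ≠ 0 ∧ ∀ i, dotb (W i) u = 0 := by
  constructor
  · rintro ⟨u, hu, h0, h⟩
    refine ⟨u, mem_EM.2 ⟨hu, fun i => ?_⟩, h0, fun i => ?_⟩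
    · have h1 := h (Fin.castAdd kb i)
      rwa [Fin.append_left] at h1
    · have h1 := h (Fin.natAdd ka i)
      rwa [Fin.append_right] at h1
  · rintro ⟨u, hu, h0, h⟩
    obtain ⟨h1, h2⟩ := mem_EM.1 hu
    refine ⟨u, h1, h0, fun i => ?_⟩
    refine Fin.addCases (fun j => ?_) (fun j => ?_) i
    · rw [Fin.append_left]; exact h2 j
    · rw [Fin.append_right]; exact h j

theorem EV2 (h1 : BCR_stmt) (h2 : KLG_stmt) (h3 : CMK_stmt) (h4 : CXF_stmt) : EV2_stmt := by
  intro ka kb t L ht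
  have hle : ∀ Ψ : Matrix (Fin t) (Fin t) ℤ → (Fin ka → Fin t → Bool) → Prop,
      Set.ncard {HB : Matrix (Fin t) (Fin t) ℤ × (Fin ka → Fin t → Bool) | IsGr HB.1 ∧ Ψ HB.1 HB.2} ≤
        2 ^ (t.choose 2 + ka * t) := by
    intro Ψ
    rw [← (h4 t ka).2]
    exact Set.ncard_le_ncard (fun HB h => h.1) (h4 t ka).1
  refine ⟨?_, ?_⟩
  · have h5 := h3 t ka kb (2 ^ kb) (t * 2 ^ (t * kb)) (fun H B => ∀ P : Pt, Above 2 P → crm P H B ≤ 1)
      (fun H B => ∃ P : Pt, Above 2 P ∧ Bad P H B) (by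
        intro H B hH hB
        have h6 := h2 t ka kb t H B (fun P => Above 2 P) hB (by
          intro s hs
          refine PTP t H 2 Nat.prime_two hH.2.2 s (fun P hP => ⟨(hs P hP).1, fun h0 => ?_⟩)
          have h7 := h1.2.1 P t ka H B
          exact (hs P hP).2 (by omega))
        have h8 : {W : Fin kb → Fin t → Bool | ∃ P : Pt, Above 2 P ∧ Bad P H (Fin.append B W)} =
            {W : Fin kb → Fin t → Bool | ∃ P : Pt, Above 2 P ∧
              ∃ u ∈ EM (KP P) (lamP P) H B, u ≠ 0 ∧ ∀ i, dotb (W i) u = 0} := by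
          ext W
          simp only [Set.mem_ofPred_eq, EV2_bad]
        rw [h8]
        exact h6)
    refine h5.trans ?_
    refine (Nat.mul_le_mul_right _ (hle (fun H B => ∀ P : Pt, Above 2 P → crm P H B ≤ 1))).trans
      (le_of_eq ?_)
    have h9 : t.choose 2 + (ka + kb) * t = (t.choose 2 + ka * t) + t * kb := by ring
    rw [h9, pow_add _ (t.choose 2 + ka * t)]
    ring
  · have h5 := h3 t ka kb (2 ^ kb) (2 ^ (4 * L + 1) * 2 ^ (t * kb))
      (fun H B => (∀ P : Pt, Above 2 P → ¬ Bad P H B) ∧ ∀ P : Pt, crm P H B ≤ 1)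
      (fun H B => ∃ P : Pt, Bad P H B) (by
        intro H B hH hB
        have h6 := h2 t ka kb (2 ^ (4 * L + 1)) H B (fun _ => True) (fun P _ => hB.2 P) (by
          intro s hs
          exact T_PTS t ka L H B hH ht hB.1 s (fun P hP => (h1.1 P t ka H B).2 (hs P hP).2))
        have h8 : {W : Fin kb → Fin t → Bool | ∃ P : Pt, Bad P H (Fin.append B W)} =
            {W : Fin kb → Fin t → Bool | ∃ P : Pt, True ∧
              ∃ u ∈ EM (KP P) (lamP P) H B, u ≠ 0 ∧ ∀ i, dotb (W i) u = 0} := by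
          ext W
          simp only [Set.mem_ofPred_eq, EV2_bad, true_and]
        rw [h8]
        exact h6)
    refine h5.trans ?_
    refine (Nat.mul_le_mul_right _ (hle (fun H B => (∀ P : Pt, Above 2 P → ¬ Bad P H B) ∧
      ∀ P : Pt, crm P H B ≤ 1))).trans (le_of_eq ?_)
    have h9 : t.choose 2 + (ka + kb) * t = (t.choose 2 + ka * t) + t * kb := by ring
    rw [h9, pow_add _ (t.choose 2 + ka * t)]
    ring

end Pool.Agent.FS
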