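import Pool.Agent.helper78.FS.Spec

/-! # FS, row STK (helper18): discrete Stokes formula on the grid -/

set_option autoImplicit false

namespace Pool.Agent.helper78.FS

open Finset

/-- partial sums. -/
def STK_s (f : ℕ → ℤ × ℤ) (j : ℕ) : ℤ × ℤ := (∑ k ∈ range j, (f k).1, ∑ k ∈ range j, (f k).2)

theorem STK_s0 (f : ℕ → ℤ × ℤ) : STK_s f 0 = 0 := by
  unfold STK_s
  simp

theorem STK_s1 (f : ℕ → ℤ × ℤ) (j : ℕ) : (STK_s f (j + 1)).1 = (STK_s f j).1 + (f j).1 := by
  unfold STK_s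
  simp only [sum_range_succ]

theorem STK_s2 (f : ℕ → ℤ × ℤ) (j : ℕ) : (STK_s f (j + 1)).2 = (STK_s f j).2 + (f j).2 := by
  unfold STK_s
  simp only [sum_range_succ]

/-- `curl` for one column: `h`, `v` the values in the column, `v'` in the next one. -/
def STK_c (h v v' : ℕ → ℤ × ℤ) (j : ℕ) : ℤ × ℤ := h j + v' j - h (j + 1) - v j

theorem STK_A (h v v' : ℕ → ℤ × ℤ) (h0 : h 0 = 0) (j : ℕ) :
    (STK_s v' j).1 = (STK_s v j).1 + (h j).1 + (STK_s (STK_c h v v') j).1 ∧
    (STK_s v' j).2 = (STK_s v j).2 + (h j).2 + (STK_s (STK_c h v v') j).2 := by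
  induction j with
  | zero => simp [STK_s0, h0]
  | succ j ih =>
    obtain ⟨i1, i2⟩ := ih
    rw [STK_s1, STK_s1, STK_s1, STK_s2, STK_s2, STK_s2, i1, i2]
    constructor
    · simp only [STK_c, Prod.fst_sub, Prod.fst_add]
      ring
    · simp only [STK_c, Prod.snd_sub, Prod.snd_add]
      ring

theorem STK_B (h v v' : ℕ → ℤ × ℤ) (h0 : h 0 = 0) (n : ℕ) :
    ∑ j ∈ range n, det2 (STK_s v' j) (v' j) - ∑ j ∈ range n, det2 (STK_s v j) (v j) =
      ∑ j ∈ range n, (det2 (h j) (v' j) - det2 (v j) (h (j + 1))) +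
      ∑ j ∈ range n, (det2 (STK_s (STK_c h v v') j) (v' j) + det2 (STK_s v j) (STK_c h v v' j)) + det2 (STK_s v n) (h n) := by
  induction n with
  | zero =>
    rw [STK_s0]
    simp [det2]
  | succ n ih =>
    rw [sum_range_succ, sum_range_succ, sum_range_succ, sum_range_succ]
    obtain ⟨a1, a2⟩ := STK_A h v v' h0 n
    have e : det2 (STK_s v' n) (v' n) - det2 (STK_s v n) (v n) = (det2 (h n) (v' n) - det2 (v n) (h (n + 1))) +
        (det2 (STK_s (STK_c h v v') n) (v' n) + det2 (STK_s v n) (STK_c h v v' n)) + (det2 (STK_s v (n + 1)) (h (n + 1)) - det2 (STK_s v n) (h n)) := by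
      unfold det2
      rw [a1, a2, STK_s1, STK_s2]
      simp only [STK_c, Prod.fst_sub, Prod.fst_add, Prod.snd_sub, Prod.snd_add]
      ring
    linear_combination ih + e

theorem STK_c_le (h v v' : ℕ → ℤ × ℤ) (hh : ∀ j, |(h j).1| ≤ 1 ∧ |(h j).2| ≤ 1) (hv : ∀ j, |(v j).1| ≤ 1 ∧ |(v j).2| ≤ 1)
    (hv' : ∀ j, |(v' j).1| ≤ 1 ∧ |(v' j).2| ≤ 1) (j : ℕ) : |(STK_c h v v' j).1| ≤ 4 ∧ |(STK_c h v v' j).2| ≤ 4 := by
  simp only [STK_c, Prod.fst_sub, Prod.fst_add, Prod.snd_sub, Prod.snd_add]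
  have a1 := abs_le.1 (hh j).1
  have a2 := abs_le.1 (hh j).2
  have a3 := abs_le.1 (hh (j + 1)).1
  have a4 := abs_le.1 (hh (j + 1)).2
  have b1 := abs_le.1 (hv j).1
  have b2 := abs_le.1 (hv j).2
  have c1 := abs_le.1 (hv' j).1
  have c2 := abs_le.1 (hv' j).2
  constructor
  · rw [abs_le]
    constructor <;> linarith [a1.1, a1.2, a3.1, a3.2, b1.1, b1.2, c1.1, c1.2]
  · rw [abs_le]
    constructor <;> linarith [a2.1, a2.2, a4.1, a4.2, b2.1, b2.2, c2.1, c2.2]

theorem STK_det (p q : ℤ × ℤ) (a b : ℤ) (hp : |p.1| ≤ a ∧ |p.2| ≤ a) (hq : |q.1| ≤ b ∧ |q.2| ≤ b) : |det2 p q| ≤ 2 * (a * b) := by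
  unfold det2
  have ha : 0 ≤ a := (abs_nonneg _).trans hp.1
  have h1 : |p.1 * q.2| ≤ a * b := by
    rw [abs_mul]
    exact mul_le_mul hp.1 hq.2 (abs_nonneg _) ha
  have h2 : |p.2 * q.1| ≤ a * b := by
    rw [abs_mul]
    exact mul_le_mul hp.2 hq.1 (abs_nonneg _) ha
  refine (abs_sub _ _).trans ?_
  linarith

/-- sum of a sequence which is bounded by `4` and vanishes off the bad indices. -/
theorem STK_sle (f : ℕ → ℤ × ℤ) (c : ℤ) (hc : ∀ j, |(f j).1| ≤ c ∧ |(f j).2| ≤ c) (bad : ℕ → Prop) [DecidablePred bad] (n : ℕ) (hb : ∀ j < n, ¬ bad j → f j = 0)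
    (j : ℕ) (hj : j ≤ n) : |(STK_s f j).1| ≤ c * ((range n).filter bad).card ∧ |(STK_s f j).2| ≤ c * ((range n).filter bad).card := by
  have hc0 : 0 ≤ c := (abs_nonneg _).trans (hc 0).1
  have key : ∀ g : ℕ → ℤ, (∀ k, |g k| ≤ c) → (∀ k < n, ¬ bad k → g k = 0) → |∑ k ∈ range j, g k| ≤ c * ((range n).filter bad).card := by
    intro g hg hg0
    have h1 : ∀ k ∈ range j, |g k| ≤ if bad k then c else 0 := by
      intro k hk
      by_cases hbk : bad k
      · rw [if_pos hbk]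
        exact hg k
      · rw [if_neg hbk, hg0 k (lt_of_lt_of_le (mem_range.1 hk) hj) hbk]
        simp
    refine (Finset.abs_sum_le_sum_abs _ _).trans ((Finset.sum_le_sum h1).trans ?_)
    have h2 : ∑ k ∈ range j, (if bad k then c else 0) ≤ ∑ k ∈ range n, (if bad k then c else 0) := by
      refine Finset.sum_le_sum_of_subset_of_nonneg (range_mono hj) fun k _ _ => ?_
      split_ifs
      · exact hc0
      · exact le_rfl
    refine h2.trans ?_
    rw [← Finset.sum_filter, Finset.sum_const, nsmul_eq_mul, mul_comm]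
  constructor
  · exact key (fun k => (f k).1) (fun k => (hc k).1) (fun k hk hbk => by rw [hb k hk hbk]; rfl)
  · exact key (fun k => (f k).2) (fun k => (hc k).2) (fun k hk hbk => by rw [hb k hk hbk]; rfl)

theorem STK_phi (f : ℕ → ℤ × ℤ) (hc : ∀ j, |(f j).1| ≤ 1 ∧ |(f j).2| ≤ 1) (n j : ℕ) (hj : j ≤ n) :
    |(STK_s f j).1| ≤ n ∧ |(STK_s f j).2| ≤ n := by
  have h := STK_sle f 1 hc (fun _ => True) n (fun _ _ h => absurd trivial h) j hj
  have e : ((range n).filter (fun _ => True)).card = n := by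
    rw [Finset.filter_true_of_mem (fun _ _ => trivial), card_range]
  rw [e, one_mul] at h
  exact h

theorem STK : STK_stmt := by
  intro m n _ H Vv B hH hV h0 hn hB
  classical
  -- errors in one column
  let b : ZMod m → ℕ := fun i => ((range n).filter (fun j => (i, j) ∈ B)).card
  let err : ZMod m → ℤ := fun i => ∑ j ∈ range n, (det2 (STK_s (STK_c (H i) (Vv i) (Vv (i + 1))) j) (Vv (i + 1) j) +
    det2 (STK_s (Vv i) j) (STK_c (H i) (Vv i) (Vv (i + 1)) j))
  have hcurl0 : ∀ i, ∀ j < n, ¬ (i, j) ∈ B → STK_c (H i) (Vv i) (Vv (i + 1)) j = 0 := by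
    intro i j hj hb
    exact hB i j hj hb
  have herr : ∀ i, |err i| ≤ 16 * (b i : ℤ) * n := by
    intro i
    have hc := STK_c_le (H i) (Vv i) (Vv (i + 1)) (hH i) (hV i) (hV (i + 1))
    have h1 : ∀ j ∈ range n, |det2 (STK_s (STK_c (H i) (Vv i) (Vv (i + 1))) j) (Vv (i + 1) j) +
        det2 (STK_s (Vv i) j) (STK_c (H i) (Vv i) (Vv (i + 1)) j)| ≤ 8 * (b i : ℤ) + (if (i, j) ∈ B then 8 * (n : ℤ) else 0) := by
      intro j hj
      have hj' : j ≤ n := (mem_range.1 hj).le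
      have g1 := STK_sle _ 4 hc (fun j => (i, j) ∈ B) n (fun j hj hb => hcurl0 i j hj hb) j hj'
      have g2 := STK_det _ (Vv (i + 1) j) _ 1 g1 (hV (i + 1) j)
      have g3 : |det2 (STK_s (Vv i) j) (STK_c (H i) (Vv i) (Vv (i + 1)) j)| ≤ if (i, j) ∈ B then 8 * (n : ℤ) else 0 := by
        by_cases hb : (i, j) ∈ B
        · rw [if_pos hb]
          have := STK_det _ _ _ 4 (STK_phi (Vv i) (hV i) n j hj') (hc j)
          linarith
        · rw [if_neg hb, hcurl0 i j (mem_range.1 hj) hb]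
          simp [det2]
      refine (abs_add_le _ _).trans (add_le_add ?_ g3)
      have e : 2 * (4 * (((range n).filter (fun j => (i, j) ∈ B)).card : ℤ) * 1) = 8 * (b i : ℤ) := by
        simp only [b]
        ring
      linarith
    refine (Finset.abs_sum_le_sum_abs _ _).trans ((Finset.sum_le_sum h1).trans ?_)
    rw [Finset.sum_add_distrib, Finset.sum_const, card_range, nsmul_eq_mul, ← Finset.sum_filter, Finset.sum_const, nsmul_eq_mul]
    have e : (((range n).filter (fun j => (i, j) ∈ B)).card : ℤ) = (b i : ℤ) := rfl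
    rw [e]
    apply le_of_eq
    ring
  have hcol : ∀ i, ∑ j ∈ range n, (det2 (H i j) (Vv (i + 1) j) - det2 (Vv i j) (H i (j + 1))) =
      (∑ j ∈ range n, det2 (STK_s (Vv (i + 1)) j) (Vv (i + 1) j) - ∑ j ∈ range n, det2 (STK_s (Vv i) j) (Vv i j)) - err i := by
    intro i
    have h := STK_B (H i) (Vv i) (Vv (i + 1)) (h0 i) n
    rw [hn i] at h
    have e : det2 (STK_s (Vv i) n) 0 = 0 := by simp [det2]
    rw [e, add_zero] at h
    rw [h]
    ring
  have hsum : ∑ i : ZMod m, ∑ j ∈ range n, (det2 (H i j) (Vv (i + 1) j) - det2 (Vv i j) (H i (j + 1))) = - ∑ i : ZMod m, err i := by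
    rw [Finset.sum_congr rfl fun i _ => hcol i, Finset.sum_sub_distrib, Finset.sum_sub_distrib]
    have e : ∑ i : ZMod m, ∑ j ∈ range n, det2 (STK_s (Vv (i + 1)) j) (Vv (i + 1) j) = ∑ i : ZMod m, ∑ j ∈ range n, det2 (STK_s (Vv i) j) (Vv i j) :=
      Equiv.sum_comp (Equiv.addRight (1 : ZMod m)) (fun i => ∑ j ∈ range n, det2 (STK_s (Vv i) j) (Vv i j))
    rw [e, sub_self, zero_sub]
  rw [hsum, abs_neg]
  refine (Finset.abs_sum_le_sum_abs _ _).trans ((Finset.sum_le_sum fun i _ => herr i).trans ?_)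
  rw [← Finset.sum_mul, ← Finset.mul_sum]
  have hbs : ∑ i : ZMod m, (b i : ℤ) ≤ B.card := by
    have h1 : ∑ i : ZMod m, b i = (((Finset.univ : Finset (ZMod m)) ×ˢ range n).filter (fun p => p ∈ B)).card := by
      rw [Finset.card_filter, Finset.sum_product]
      refine Finset.sum_congr rfl fun i _ => ?_
      simp only [b]
      rw [Finset.card_filter]
    have h2 : (((Finset.univ : Finset (ZMod m)) ×ˢ range n).filter (fun p => p ∈ B)).card ≤ B.card := by
      apply Finset.card_le_card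
      intro p hp
      exact (Finset.mem_filter.1 hp).2
    rw [← h1] at h2
    exact_mod_cast h2
  have hn0 : (0 : ℤ) ≤ n := Int.natCast_nonneg n
  exact mul_le_mul_of_nonneg_right (by linarith) hn0

end Pool.Agent.helper78.FS
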